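import Mathlib

set_option autoImplicit false

namespace Pool.Agent.Results.MP_f5f603_al.TwoGoodInvolutions

/-- The quandle axioms for `x * y = op x y`. -/
def IsQuandle {R : Type} (op : R → R → R) : Prop :=
  (∀ x, op x x = x) ∧ (∀ y, Function.Bijective fun x => op x y) ∧
    ∀ x y z, op (op x y) z = op (op x z) (op y z)

/-- The group generated by the right translations acts transitively. -/
def Connected {R : Type} (op : R → R → R) : Prop :=
  ∀ x y, ∃ g ∈ Subgroup.closure {σ : Equiv.Perm R | ∃ z, ∀ w, σ w = op w z}, g x = y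

/-- Good involutions; the last clause says `s_{ρ y} = s_y⁻¹`. -/
def GoodInvolution {R : Type} (op : R → R → R) (ρ : R → R) : Prop :=
  (∀ x, ρ (ρ x) = x) ∧ (∀ x y, ρ (op x y) = op (ρ x) y) ∧ ∀ x y, op (op x (ρ y)) y = x

def opC (a b : Fin 6) : Fin 6 := Fin.ofNat 6 ((7170516540178262739754679282335278837011280 >>> (4 * (6 * a.val + b.val))) % 16)

def opA (a b : Fin 12) : Fin 12 := Fin.ofNat 12 ((179382703191252761198656607298053805505997037283929083736770451018219908854851466785090711624727741934770934173073183764598773505163366317552720817078900162280096211792168592 >>> (4 * (12 * a.val + b.val))) % 16)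

def ρC : Fin 6 → Fin 6 := ![4, 2, 1, 5, 0, 3]
def ρA : Fin 12 → Fin 12 := ![3, 5, 4, 0, 2, 1, 10, 9, 11, 7, 6, 8]

theorem qC : IsQuandle opC := by unfold IsQuandle; decide +kernel
theorem qA : IsQuandle opA := by unfold IsQuandle; decide +kernel
theorem gC : GoodInvolution opC ρC := by unfold GoodInvolution; decide +kernel
theorem gA : GoodInvolution opA ρA := by unfold GoodInvolution; decide +kernel
theorem gA' : GoodInvolution opA id := by unfold GoodInvolution; decide +kernel
theorem cC : ∀ a, ∃ u v w, opC (opC (opC 0 u) v) w = a := by decide +kernel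
theorem cA : ∀ a, ∃ u v w, opA (opA (opA 0 u) v) w = a := by decide +kernel

def op (x y : Fin 6 × Fin 12) : Fin 6 × Fin 12 := (opC x.1 y.1, opA x.2 y.2)

theorem good (ρ : Fin 12 → Fin 12) (h : GoodInvolution opA ρ) :
    GoodInvolution op (Prod.map ρC ρ) :=
  ⟨fun x => Prod.ext (gC.1 x.1) (h.1 x.2), fun x y => Prod.ext (gC.2.1 x.1 y.1) (h.2.1 x.2 y.2),
    fun x y => Prod.ext (gC.2.2 x.1 y.1) (h.2.2 x.2 y.2)⟩

theorem bij (y : Fin 6 × Fin 12) : Function.Bijective fun x => op x y :=
  (qC.2.1 y.1).prodMap (qA.2.1 y.2)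

/-- A finite connected noninvolutory quandle with two distinct good involutions. -/
theorem result : ∃ (R : Type) (op : R → R → R), Finite R ∧ IsQuandle op ∧ Connected op ∧
    (¬ ∀ x y, op (op x y) y = x) ∧
    ∃ ρ₁ ρ₂ : R → R, GoodInvolution op ρ₁ ∧ GoodInvolution op ρ₂ ∧ ρ₁ ≠ ρ₂ := by
  refine ⟨Fin 6 × Fin 12, op, inferInstance,
    ⟨fun x => Prod.ext (qC.1 x.1) (qA.1 x.2), bij,
      fun x y z => Prod.ext (qC.2.2 x.1 y.1 z.1) (qA.2.2 x.2 y.2 z.2)⟩, ?_, ?_,
    _, _, good _ gA, good _ gA', ?_⟩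
  · have key : ∀ x, ∃ g ∈ Subgroup.closure
        {σ : Equiv.Perm (Fin 6 × Fin 12) | ∃ z, ∀ w, σ w = op w z}, g (0, 0) = x := by
      intro x
      obtain ⟨u, v, w, h⟩ := cC x.1
      obtain ⟨u', v', w', h'⟩ := cA x.2
      have hm : ∀ z, Equiv.ofBijective _ (bij z) ∈ Subgroup.closure
          {σ : Equiv.Perm (Fin 6 × Fin 12) | ∃ z, ∀ w, σ w = op w z} :=
        fun z => Subgroup.subset_closure ⟨z, fun _ => rfl⟩
      exact ⟨_, mul_mem (hm (w, w')) (mul_mem (hm (v, v')) (hm (u, u'))), Prod.ext h h'⟩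
    intro x y
    obtain ⟨g, hg, rfl⟩ := key x
    obtain ⟨k, hk, rfl⟩ := key y
    exact ⟨k * g⁻¹, mul_mem hk (inv_mem hg), by simp⟩
  · intro h
    have := congrArg Prod.fst (h (1, 0) (0, 0))
    revert this
    decide +kernel
  · intro h
    have := congrArg Prod.snd (congrFun h (0, 0))
    revert this
    decide +kernel

end Pool.Agent.Results.MP_f5f603_al.TwoGoodInvolutions
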